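import Pool.Agent.H325.CT.Loc
import Pool.Agent.H164.CT.Width
import Pool.Agent.H155.CT.Periodic

/-!
# Groups with the law `[x, y] ^ 3 = 1`

Let `G` be any group in which all commutators have order dividing 3. Then the derived subgroup `G'` is a
locally finite 3-group, uniformly: any `d` commutators of `G` generate a finite group whose order divides
`3 ^ e d`, where `e` does not depend on `G`. So the products of `d` commutators have order dividing
`3 ^ e d`, and Q1 holds for all groups with a bound for the number of commutators needed to express the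
elements of `G'`, in particular (with a bound depending on the number of generators only) for finitely
generated residually nilpotent groups.

The proof: an element `a` with `a ^ 3 = 1` and `[a, g] ^ 3 = 1` for all `g` lies in the locally finite
3-radical (`Pool.Agent.H325.H1.rad`, the main step of `MP_544bd1_al.ChainsOfCubes`); commutators are such
elements; and the law is inherited by the product of a sequence of counterexamples to uniformity.
-/

set_option autoImplicit false

namespace Pool.Agent.Results.MP_107960_al.UniformlyLocallyFinite

open Pool.Agent.H325.CT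

/-- the law `[x, y] ^ 3 = 1`, where `[x, y] = x⁻¹ y⁻¹ x y` -/
def CommutatorsCube (G : Type) [Group G] : Prop := ∀ x y : G, (x⁻¹ * y⁻¹ * x * y) ^ 3 = 1

/-- `c` is a commutator -/
def IsCommutator {G : Type} [Group G] (c : G) : Prop := ∃ x y : G, c = x⁻¹ * y⁻¹ * x * y

/-- `G` is residually nilpotent: the intersection of the terms of the lower central series is trivial. -/
def ResiduallyNilpotent (G : Type) [Group G] : Prop :=
  ∀ z : G, (∀ k, z ∈ Subgroup.lowerCentralSeries (⊤ : Subgroup G) k) → z = 1

/-- There is a function `e` such that for every group `G` with the law `[x, y] ^ 3 = 1` and every `d`: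
* any `d` commutators of `G` generate a finite group whose order divides `3 ^ e d`;
* if every element of `G'` is a product of `d` commutators then `z ^ 3 ^ e d = 1` for `z ∈ G'`;
* if `G` is generated by `d` elements then `z ^ 3 ^ e d` lies in all terms of the lower central series
  of `G` for `z ∈ G'`; so `z ^ 3 ^ e d = 1` for `z ∈ G'` if `G` is residually nilpotent.
Moreover the finitely generated subgroups of `G'` are finite `3`-groups, and if `G / G'` is periodic then
the finitely generated subgroups of `G` are finite. -/
theorem result : (∃ e : ℕ → ℕ, ∀ (G : Type) [Group G], CommutatorsCube G → ∀ d : ℕ,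
      (∀ c : Fin d → G, (∀ i, IsCommutator (c i)) →
        Nat.card (Subgroup.closure (Set.range c)) ∣ 3 ^ e d) ∧
      ((∀ z ∈ commutator G, ∃ c : Fin d → G, (∀ i, IsCommutator (c i)) ∧ z = (List.ofFn c).prod) →
        ∀ z ∈ commutator G, z ^ 3 ^ e d = 1) ∧
      ((∃ x : Fin d → G, Subgroup.closure (Set.range x) = ⊤) → ∀ z ∈ commutator G,
        (∀ k, z ^ 3 ^ e d ∈ Subgroup.lowerCentralSeries (⊤ : Subgroup G) k) ∧
        (ResiduallyNilpotent G → z ^ 3 ^ e d = 1))) ∧
    (∀ (G : Type) [Group G], CommutatorsCube G →
      (∀ S : Set G, S.Finite → S ⊆ commutator G → ∃ n, Nat.card (Subgroup.closure S) = 3 ^ n) ∧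
      ((∀ g : G, ∃ n : ℕ, 0 < n ∧ g ^ n ∈ commutator G) →
        ∀ S : Set G, S.Finite → Finite (Subgroup.closure S))) := by
  refine ⟨⟨ee.{0}, ?_⟩, ?_⟩
  · intro G _ hG d
    have hprod : ∀ (H : Type) [Group H], CommutatorsCube H → ∀ c : Fin d → H,
        (∀ i, IsCommutator (c i)) → (List.ofFn c).prod ^ 3 ^ ee.{0} d = 1 :=
      fun H _ hH c hc => ee_pow d hH c hc (prod_mem_closure c)
    refine ⟨fun c hc => ee_spec d hG c hc, ?_, ?_⟩
    · intro h z hz
      obtain ⟨c, hc, rfl⟩ := h z hz
      exact hprod G hG c hc
    · rintro ⟨x, hx⟩ z hz
      have main : ∀ k, z ^ 3 ^ ee.{0} d ∈ Subgroup.lowerCentralSeries (⊤ : Subgroup G) k := by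
        intro k
        set N := Subgroup.lowerCentralSeries (⊤ : Subgroup G) k with hN
        have hNn : N.Normal := by rw [hN]; infer_instance
        have hQ : CommutatorsCube (G ⧸ N) := by
          intro a b
          obtain ⟨a, rfl⟩ := QuotientGroup.mk'_surjective N a
          obtain ⟨b, rfl⟩ := QuotientGroup.mk'_surjective N b
          rw [← map_inv, ← map_inv, ← map_mul, ← map_mul, ← map_mul, ← map_pow, hG a b, map_one]
        have hnil : Group.IsNilpotent (G ⧸ N) := by
          rw [Subgroup.nilpotent_iff_lowerCentralSeries]
          refine ⟨k, ?_⟩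
          rw [← Subgroup.map_top_of_surjective (QuotientGroup.mk' N)
            (QuotientGroup.mk'_surjective N), ← Subgroup.map_lowerCentralSeries, ← hN,
            Subgroup.map_eq_bot_iff, QuotientGroup.ker_mk']
        have hgen : Subgroup.closure (Set.range fun i => QuotientGroup.mk' N (x i)) = ⊤ := by
          have e1 := congrArg (Subgroup.map (QuotientGroup.mk' N)) hx
          rw [MonoidHom.map_closure, ← Set.range_comp, Subgroup.map_top_of_surjective _
            (QuotientGroup.mk'_surjective N)] at e1
          exact e1
        have hzQ : QuotientGroup.mk' N z ∈ commutator (G ⧸ N) := by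
          have e1 : QuotientGroup.mk' N z ∈ (commutator G).map (QuotientGroup.mk' N) :=
            Subgroup.mem_map_of_mem _ hz
          rw [commutator_def, Subgroup.map_commutator] at e1
          exact Subgroup.commutator_mono le_top le_top e1
        obtain ⟨g, hg⟩ := Pool.Agent.H164.CT.width hnil _ hgen _ hzQ
        rw [← QuotientGroup.eq_one_iff, ← QuotientGroup.mk'_apply, map_pow, hg]
        exact hprod _ hQ _ (fun i => isC_comm _ _)
      exact ⟨main, fun h => h _ main⟩
  · intro G _ hG
    refine ⟨fun S hS hSG => Law.loc hG hS hSG, fun hp S hS => ?_⟩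
    exact Pool.Agent.H155.CT.lfn_of_periodic (Pool.Agent.H325.rad G) (Pool.Agent.H325.rad_lf G).1
      (Law.comm_le hG) (fun g => by
        obtain ⟨n, hn, hg⟩ := hp g
        exact ⟨n, hn, Law.comm_le hG hg⟩) S hS

end Pool.Agent.Results.MP_107960_al.UniformlyLocallyFinite
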